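import Pool.Agent.H48.Q1.RefApp

set_option autoImplicit false
open Finset Filter Topology

/-! Module M5, B2: ratios of one-point functions for a point at lattice distance `⌊ρ R⌋` from the end
of a free side (insertion of a new line). -/

namespace Pool.Agent.H91.Q1

open Pool.Agent.H75.Perc (dir dir_cases Pr)
open Pool.Agent.Q1.M4 Pool.Agent.Q1.M5 Pool.Agent.H48.Q1

variable {x y : ℤ → ℝ}

lemma ne_of_between (hx : StrictMono x) {a : ℤ} {z : ℝ} (h1 : x a < z) (h2 : z < x (a + 1))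
    (i : ℤ) : x i ≠ z := by
  rintro rfl
  have := hx.lt_iff_lt.1 h1
  have := hx.lt_iff_lt.1 h2
  omega

/-- the ratio for a new point on a horizontal free side -/
lemma ratio_h (hA : StA) (P : PType) (hx : StrictMono x) (hy : StrictMono y) {n : ℕ}
    (hn : FlatV P n) {n0 : ℕ} (hn0 : n0 < P.m) (hk : (P.side n0).2 % 2 = 0) {z : ℝ}
    (h1 : x (P.side n0).1.1 < z) (h2 : z < x ((P.side n0).1.1 + 1)) :
    ∃ q : ℝ, 0 < q ∧ ∀ (R : ℕ → ℝ) (X Y : ℕ → ℤ → ℤ) (Z : ℕ → ℤ), App x y R X Y →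
      Tendsto (fun j => (Z j : ℝ) / R j) atTop (𝓝 z) →
      Tendsto (fun j => hh P (X j) (Y j) (lv P (X j) (Y j) n) /
        hh P (X j) (Y j) (Z j, Y j (P.vert n0).2)) atTop (𝓝 q) := by
  obtain ⟨x', y', I, K, cx, cy, hr, hcx, -, hlift⟩ := exists_refine hx hy {z} ∅
    (by simpa using ⟨⟨_, h1⟩, _, h2⟩) (by simp)
  have hz : x' (cx z) = z := hcx z (by simp)
  obtain ⟨c1, c2⟩ := hr.between_x (by rw [hz]; exact h1) (by rw [hz]; exact h2)
  obtain ⟨n', -, -, hflat, hlv⟩ := refine_lv_h P hr.hI hr.hK hn0 hk c1 c2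
  obtain ⟨q, hq, hlim⟩ := hA (P.refine hr.hI hr.hK) x' y' hr.mx hr.my (P.L I K n) n'
    (flatV_ref hr.hI hr.hK hn) hflat
  refine ⟨q, hq, fun R X Y Z hApp hZ => ?_⟩
  obtain ⟨X', Y', hApp', hRA, hZx, -⟩ := hlift R X Y (fun _ => Z) (fun _ _ => 0) hApp
    (fun w hw _ => by rw [mem_singleton.1 hw]; exact hZ) (by simp)
  refine (hlim R X' Y' hApp').congr' ?_
  filter_upwards [hApp'.mono] with j hj
  rw [hRA.hh P hr.hI hr.hK hj.1 hj.2, hRA.lv P hr.hI hr.hK, hlv,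
    hZx z (by simp) (ne_of_between hx h1 h2) j, hRA.eY]

/-- the ratio for a new point on a vertical free side -/
lemma ratio_v (hA : StA) (P : PType) (hx : StrictMono x) (hy : StrictMono y) {n : ℕ}
    (hn : FlatV P n) {n0 : ℕ} (hn0 : n0 < P.m) (hk : (P.side n0).2 % 2 = 1) {z : ℝ}
    (h1 : y (P.side n0).1.2 < z) (h2 : z < y ((P.side n0).1.2 + 1)) :
    ∃ q : ℝ, 0 < q ∧ ∀ (R : ℕ → ℝ) (X Y : ℕ → ℤ → ℤ) (Z : ℕ → ℤ), App x y R X Y →
      Tendsto (fun j => (Z j : ℝ) / R j) atTop (𝓝 z) →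
      Tendsto (fun j => hh P (X j) (Y j) (lv P (X j) (Y j) n) /
        hh P (X j) (Y j) (X j (P.vert n0).1, Z j)) atTop (𝓝 q) := by
  obtain ⟨x', y', I, K, cx, cy, hr, -, hcy, hlift⟩ := exists_refine hx hy ∅ {z}
    (by simp) (by simpa using ⟨⟨_, h1⟩, _, h2⟩)
  have hz : y' (cy z) = z := hcy z (by simp)
  obtain ⟨c1, c2⟩ := hr.between_y (by rw [hz]; exact h1) (by rw [hz]; exact h2)
  obtain ⟨n', -, -, hflat, hlv⟩ := refine_lv_v P hr.hI hr.hK hn0 hk c1 c2
  obtain ⟨q, hq, hlim⟩ := hA (P.refine hr.hI hr.hK) x' y' hr.mx hr.my (P.L I K n) n'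
    (flatV_ref hr.hI hr.hK hn) hflat
  refine ⟨q, hq, fun R X Y Z hApp hZ => ?_⟩
  obtain ⟨X', Y', hApp', hRA, -, hZy⟩ := hlift R X Y (fun _ _ => 0) (fun _ => Z) hApp (by simp)
    (fun w hw _ => by rw [mem_singleton.1 hw]; exact hZ)
  refine (hlim R X' Y' hApp').congr' ?_
  filter_upwards [hApp'.mono] with j hj
  rw [hRA.hh P hr.hI hr.hK hj.1 hj.2, hRA.lv P hr.hI hr.hK, hlv,
    hZy z (by simp) (ne_of_between hy h1 h2) j, hRA.eX]

lemma tendsto_floor {R : ℕ → ℝ} (hR : Tendsto R atTop atTop) {ρ : ℝ} :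
    Tendsto (fun j => ((⌊ρ * R j⌋ : ℤ) : ℝ) / R j) atTop (𝓝 ρ) := by
  have h0 : ∀ᶠ j in atTop, 0 < R j := hR.eventually_gt_atTop 0
  have hinv : Tendsto (fun j => (R j)⁻¹) atTop (𝓝 0) := tendsto_inv_atTop_zero.comp hR
  have h1 : Tendsto (fun j => ρ - (R j)⁻¹) atTop (𝓝 ρ) := by
    have := (tendsto_const_nhds (x := ρ)).sub hinv
    simpa using this
  refine tendsto_of_tendsto_of_tendsto_of_le_of_le' h1 tendsto_const_nhds ?_ ?_
  · filter_upwards [h0] with j hj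
    rw [le_div_iff₀ hj, sub_mul, inv_mul_cancel₀ hj.ne']
    linarith [Int.lt_floor_add_one (ρ * R j)]
  · filter_upwards [h0] with j hj
    rw [div_le_iff₀ hj]
    exact Int.floor_le _

/-- lattice approximation of a point at distance `ρ` from a line -/
lemma tendsto_shift {R : ℕ → ℝ} (hR : Tendsto R atTop atTop) {X : ℕ → ℤ} {a ρ : ℝ} (s : ℤ)
    (hX : Tendsto (fun j => (X j : ℝ) / R j) atTop (𝓝 a)) :
    Tendsto (fun j => ((X j + s * ⌊ρ * R j⌋ : ℤ) : ℝ) / R j) atTop (𝓝 (a + s * ρ)) := by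
  have h1 := (tendsto_floor hR (ρ := ρ)).const_mul (s : ℝ)
  refine (hX.add h1).congr fun j => ?_
  push_cast
  ring

/-- **Ratios near the end of a free side.** `p` is the beginning (`σ = 1`) or the end (`σ = -1`) of
the free side `n0`. -/
theorem near_gen (hA : StA) (P : PType) (hx : StrictMono x) (hy : StrictMono y) {n : ℕ}
    (hn : FlatV P n) {n0 : ℕ} (hn0 : n0 < P.m) {p : ℤ × ℤ} {σ : ℤ}
    (hp : (σ = 1 ∧ p = P.vert n0) ∨ (σ = -1 ∧ p = P.vert (n0 + 1))) :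
    ∃ ρ0 : ℝ, 0 < ρ0 ∧ ∀ ρ : ℝ, 0 < ρ → ρ < ρ0 → ∃ q : ℝ, 0 < q ∧
      ∀ (R : ℕ → ℝ) (X Y : ℕ → ℤ → ℤ), App x y R X Y →
      Tendsto (fun j => hh P (X j) (Y j) (lv P (X j) (Y j) n) /
        hh P (X j) (Y j) (lpt (X j) (Y j) p + (σ * ⌊ρ * R j⌋) • dir (P.side n0).2))
        atTop (𝓝 q) := by
  have hvs : P.vert (n0 + 1) = P.vert n0 + dir (P.side n0).2 := P.vert_succ n0
  have hv : P.vert n0 = tail (P.side n0) := rfl
  obtain ⟨⟨⟨a, b⟩, k⟩, hs⟩ : ∃ s, P.side n0 = s := ⟨_, rfl⟩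
  refine ⟨min (x (a + 1) - x a) (y (b + 1) - y b),
    lt_min (sub_pos.2 (hx (by omega))) (sub_pos.2 (hy (by omega))), fun ρ hρ hρ0 => ?_⟩
  have hρx : ρ < x (a + 1) - x a := lt_of_lt_of_le hρ0 (min_le_left _ _)
  have hρy : ρ < y (b + 1) - y b := lt_of_lt_of_le hρ0 (min_le_right _ _)
  rw [hs] at hvs hv
  simp only at hvs
  rcases dir_cases k with ⟨h, e⟩ | ⟨h, e⟩ | ⟨h, e⟩ | ⟨h, e⟩
  · have ht : P.vert n0 = (a, b) := by rw [hv]; unfold tail; simp only [h]; norm_num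
    rw [ht, e] at hvs
    rcases hp with ⟨hσ, hp⟩ | ⟨hσ, hp⟩
    · obtain ⟨q, hq, hl⟩ := ratio_h hA P hx hy hn hn0 (z := x a + ρ) (by rw [hs]; simp only; omega)
        (by rw [hs]; simp only; linarith) (by rw [hs]; simp only; linarith)
      refine ⟨q, hq, fun R X Y hApp => ?_⟩
      have hZ := tendsto_shift (ρ := ρ) hApp.app.R_top 1 (hApp.app.X_lim a)
      have := hl R X Y (fun j => X j a + 1 * ⌊ρ * R j⌋) hApp (by simpa using hZ)
      refine this.congr fun j => ?_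
      rw [hσ, hp, hs, e, ht]
      congr 2
      ext <;> simp [lpt]
    · obtain ⟨q, hq, hl⟩ := ratio_h hA P hx hy hn hn0 (z := x (a + 1) + ((-1 : ℤ) : ℝ) * ρ)
        (by rw [hs]; simp only; omega)
        (by rw [hs]; push_cast; linarith) (by rw [hs]; push_cast; linarith)
      refine ⟨q, hq, fun R X Y hApp => ?_⟩
      have hZ := tendsto_shift (ρ := ρ) hApp.app.R_top (-1) (hApp.app.X_lim (a + 1))
      have := hl R X Y _ hApp hZ
      refine this.congr fun j => ?_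
      rw [hσ, hp, hs, e, ht, hvs]
      congr 2
      ext <;> simp [lpt]
  · have ht : P.vert n0 = (a + 1, b) := by rw [hv]; unfold tail; simp only [h]; norm_num
    rw [ht, e] at hvs
    rcases hp with ⟨hσ, hp⟩ | ⟨hσ, hp⟩
    · obtain ⟨q, hq, hl⟩ := ratio_v hA P hx hy hn hn0 (z := y b + ρ) (by rw [hs]; simp only; omega)
        (by rw [hs]; simp only; linarith) (by rw [hs]; simp only; linarith)
      refine ⟨q, hq, fun R X Y hApp => ?_⟩
      have hZ := tendsto_shift (ρ := ρ) hApp.app.R_top 1 (hApp.app.Y_lim b)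
      have := hl R X Y (fun j => Y j b + 1 * ⌊ρ * R j⌋) hApp (by simpa using hZ)
      refine this.congr fun j => ?_
      rw [hσ, hp, hs, e, ht]
      congr 2
      ext <;> simp [lpt]
    · obtain ⟨q, hq, hl⟩ := ratio_v hA P hx hy hn hn0 (z := y (b + 1) + ((-1 : ℤ) : ℝ) * ρ)
        (by rw [hs]; simp only; omega)
        (by rw [hs]; push_cast; linarith) (by rw [hs]; push_cast; linarith)
      refine ⟨q, hq, fun R X Y hApp => ?_⟩
      have hZ := tendsto_shift (ρ := ρ) hApp.app.R_top (-1) (hApp.app.Y_lim (b + 1))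
      have := hl R X Y _ hApp hZ
      refine this.congr fun j => ?_
      rw [hσ, hp, hs, e, ht, hvs]
      congr 2
      ext <;> simp [lpt]
  · have ht : P.vert n0 = (a + 1, b + 1) := by rw [hv]; unfold tail; simp only [h]; norm_num
    rw [ht, e] at hvs
    rcases hp with ⟨hσ, hp⟩ | ⟨hσ, hp⟩
    · obtain ⟨q, hq, hl⟩ := ratio_h hA P hx hy hn hn0 (z := x (a + 1) + ((-1 : ℤ) : ℝ) * ρ)
        (by rw [hs]; simp only; omega)
        (by rw [hs]; push_cast; linarith) (by rw [hs]; push_cast; linarith)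
      refine ⟨q, hq, fun R X Y hApp => ?_⟩
      have hZ := tendsto_shift (ρ := ρ) hApp.app.R_top (-1) (hApp.app.X_lim (a + 1))
      have := hl R X Y _ hApp hZ
      refine this.congr fun j => ?_
      rw [hσ, hp, hs, e, ht]
      congr 2
      ext <;> simp [lpt]
    · obtain ⟨q, hq, hl⟩ := ratio_h hA P hx hy hn hn0 (z := x a + ρ) (by rw [hs]; simp only; omega)
        (by rw [hs]; simp only; linarith) (by rw [hs]; simp only; linarith)
      refine ⟨q, hq, fun R X Y hApp => ?_⟩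
      have hZ := tendsto_shift (ρ := ρ) hApp.app.R_top 1 (hApp.app.X_lim a)
      have := hl R X Y (fun j => X j a + 1 * ⌊ρ * R j⌋) hApp (by simpa using hZ)
      refine this.congr fun j => ?_
      rw [hσ, hp, hs, e, ht, hvs]
      congr 2
      ext <;> simp [lpt]
  · have ht : P.vert n0 = (a, b + 1) := by rw [hv]; unfold tail; simp only [h]; norm_num
    rw [ht, e] at hvs
    rcases hp with ⟨hσ, hp⟩ | ⟨hσ, hp⟩
    · obtain ⟨q, hq, hl⟩ := ratio_v hA P hx hy hn hn0 (z := y (b + 1) + ((-1 : ℤ) : ℝ) * ρ)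
        (by rw [hs]; simp only; omega)
        (by rw [hs]; push_cast; linarith) (by rw [hs]; push_cast; linarith)
      refine ⟨q, hq, fun R X Y hApp => ?_⟩
      have hZ := tendsto_shift (ρ := ρ) hApp.app.R_top (-1) (hApp.app.Y_lim (b + 1))
      have := hl R X Y _ hApp hZ
      refine this.congr fun j => ?_
      rw [hσ, hp, hs, e, ht]
      congr 2
      ext <;> simp [lpt]
    · obtain ⟨q, hq, hl⟩ := ratio_v hA P hx hy hn hn0 (z := y b + ρ) (by rw [hs]; simp only; omega)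
        (by rw [hs]; simp only; linarith) (by rw [hs]; simp only; linarith)
      refine ⟨q, hq, fun R X Y hApp => ?_⟩
      have hZ := tendsto_shift (ρ := ρ) hApp.app.R_top 1 (hApp.app.Y_lim b)
      have := hl R X Y (fun j => Y j b + 1 * ⌊ρ * R j⌋) hApp (by simpa using hZ)
      refine this.congr fun j => ?_
      rw [hσ, hp, hs, e, ht, hvs]
      congr 2
      ext <;> simp [lpt]

end Pool.Agent.H91.Q1
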