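import Pool.Agent.H91.Q1.B2
import Pool.Agent.H29.Q1.MarkLocal

set_option autoImplicit false

/-! Module M5: (A) implies (B2). -/

namespace Pool.Agent.H91.Q1

open Pool.Agent.Q1.M5

/-- **(B2)**: the normalised one-point functions converge, if (A) holds. -/
theorem stB2 (hA : StA) : ∃ pz : ℝ → ℝ, StPz pz ∧ StB2 pz :=
  stB2_of hA Pool.Agent.H29.Q1.stB1a Pool.Agent.H29.Q1.stB1b

end Pool.Agent.H91.Q1
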