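import Pool.Agent.H91.Q1.B2Cmp
import Pool.Agent.H52.Q1.SideEv

set_option autoImplicit false
open Finset Filter Topology

/-! Module M5, B2: normalised one-point functions converge. -/

namespace Pool.Agent.H91.Q1

open Pool.Agent.H75.Perc (dir dir_cases Pr)
open Pool.Agent.Q1.M4 Pool.Agent.Q1.M5 Pool.Agent.H48.Q1

/-! ### Moving the mark `b` to a straight vertex -/

/-- There is a side of direction `0` (the lowest one). -/
lemma exists_bottom (P : PType) : ∃ n < P.N, (P.side n).2 % 4 = 0 := by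
  obtain ⟨c, hc, hmin⟩ := P.Q.exists_min_image (fun c : Cell => c.2) P.good.ne
  have hs : IsSide P.Q (c, 0) := by
    refine ⟨hc, ?_⟩
    intro h
    have h1 := hmin _ h
    rcases dir_cases ((0 : ℤ) - 1) with ⟨a, b⟩ | ⟨a, b⟩ | ⟨a, b⟩ | ⟨a, b⟩
    · omega
    · omega
    · omega
    · simp only [b, Prod.snd_add] at h1
      omega
  obtain ⟨n, hn, -, h2⟩ := P.all (c, 0) hs
  refine ⟨n, hn, ?_⟩
  simpa [PType.side] using h2

/-- Change of the mark `b`. -/
def remark (P : PType) (m : ℕ) (h0 : 0 < m) (h1 : m < P.N) : PType :=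
  { P with m := m, hm0 := h0, hmN := h1 }

@[simp] lemma remark_side (P : PType) (m : ℕ) (h0 : 0 < m) (h1 : m < P.N) (n : ℕ) :
    (remark P m h0 h1).side n = P.side n := rfl

@[simp] lemma remark_N (P : PType) (m : ℕ) (h0 : 0 < m) (h1 : m < P.N) :
    (remark P m h0 h1).N = P.N := rfl

@[simp] lemma remark_m (P : PType) (m : ℕ) (h0 : 0 < m) (h1 : m < P.N) :
    (remark P m h0 h1).m = m := rfl

/-- A refinement with three fine cells below a bottom side: the mark `b` can be moved to a straight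
vertex of direction `0`, with a flat free vertex just before it. -/
lemma exists_straight (P : PType) {I K : ℤ → ℤ} (hI : StrictMono I) (hK : StrictMono K) {n0 : ℕ}
    (hn0 : n0 < P.N) (hk : (P.side n0).2 % 4 = 0)
    (h3 : I (P.side n0).1.1 + 3 ≤ I ((P.side n0).1.1 + 1)) :
    ∃ (P1 : PType) (n1 : ℕ), FlatV P1 n1 ∧ (P1.side 0).2 = ((P.refine hI hK).side 0).2 ∧
      P1.N = (P.refine hI hK).N ∧
      (P1.side (P1.N - 1)).2 = ((P.refine hI hK).side ((P.refine hI hK).N - 1)).2 ∧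
      (P1.side (P1.m - 1)).2 % 4 = 0 ∧ (P1.side P1.m).2 % 4 = 0 := by
  have hlen : 3 ≤ len I K (P.side n0) := by
    unfold len
    rw [if_pos (by omega)]
    omega
  have hN : P.L I K n0 + 2 < (P.refine hI hK).N := by
    rw [P.refine_N hI hK]
    exact (P.loc_lt hI hK (j := 2) (by omega)).2 hn0
  refine ⟨remark (P.refine hI hK) (P.L I K n0 + 2) (by omega) hN, P.L I K n0 + 1, ?_, rfl, rfl,
    rfl, ?_, ?_⟩
  · refine ⟨by omega, by simp, ?_⟩
    simp only [remark_side, Nat.add_sub_cancel]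
    have h1 := P.refine_dir hI hK (n := n0) (j := 0) (by omega)
    have h2 := P.refine_dir hI hK (n := n0) (j := 1) (by omega)
    rw [add_zero] at h1
    rw [h1, h2]
  · simp only [remark_side, remark_m]
    have h2 := P.refine_dir hI hK (n := n0) (j := 1) (by omega)
    have e : P.L I K n0 + 2 - 1 = P.L I K n0 + 1 := by omega
    rw [e, h2]
    exact hk
  · simp only [remark_side, remark_m]
    have h2 := P.refine_dir hI hK (n := n0) (j := 2) (by omega)
    rw [h2]
    exact hk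

/-! ### The main comparison -/

/-- For a reference type with a straight mark `b` of direction `0`. -/
theorem ratio_ref (hA : StA) (hBa : StB1a) (hBb : StB1b) {P0 : PType} {x0 y0 : ℤ → ℝ}
    (hx0 : StrictMono x0) (hy0 : StrictMono y0) {n0 : ℕ} (hn0 : FlatV P0 n0)
    (s1 : (P0.side (P0.m - 1)).2 % 4 = 0) (s2 : (P0.side P0.m).2 % 4 = 0)
    (P : PType) {x y : ℤ → ℝ} (hx : StrictMono x) (hy : StrictMono y) {n : ℕ} (hn : FlatV P n) :
    ∃ g : ℝ, 0 < g ∧ ∀ (R : ℕ → ℝ) (X Y X0 Y0 : ℕ → ℤ → ℤ), App x y R X Y → App x0 y0 R X0 Y0 →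
      Tendsto (fun j => hh P (X j) (Y j) (lv P (X j) (Y j) n) /
        hh P0 (X0 j) (Y0 j) (lv P0 (X0 j) (Y0 j) n0)) atTop (𝓝 g) := by
  obtain ⟨k, hkN, hk⟩ := exists_bottom P
  -- insert two lines
  set a := (P.side k).1.1 with ha
  have hlt : x a < x (a + 1) := hx (by omega)
  set z1 := x a + (x (a + 1) - x a) / 3 with hz1
  set z2 := x a + 2 * (x (a + 1) - x a) / 3 with hz2
  obtain ⟨x', y', I, K, cx, cy, hr, hcx, -, hlift⟩ := exists_refine hx hy {z1, z2} ∅
    (by
      intro z hz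
      rw [mem_insert, mem_singleton] at hz
      refine ⟨a, a + 1, ?_, ?_⟩ <;> rcases hz with rfl | rfl <;> simp only [hz1, hz2] <;> linarith)
    (by simp)
  have e1 : x' (cx z1) = z1 := hcx z1 (by simp)
  have e2 : x' (cx z2) = z2 := hcx z2 (by simp)
  have b1 := hr.between_x (a := a) (c := cx z1) (by rw [e1]; linarith) (by rw [e1]; linarith)
  have b2 := hr.between_x (a := a) (c := cx z2) (by rw [e2]; linarith) (by rw [e2]; linarith)
  have b3 : cx z1 < cx z2 := hr.mx.lt_iff_lt.1 (by rw [e1, e2]; linarith)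
  obtain ⟨P1, n1, f1, d1, d2, d3, d4, d5⟩ := exists_straight P hr.hI hr.hK hkN hk (by
    rw [← ha]; omega)
  obtain ⟨g1, hg1, h1⟩ := compare_a hA hBa hr.mx hr.my hr.mx hr.my (flatV_ref hr.hI hr.hK hn) f1
    (by rw [d1]; simp) (by rw [d3]; simp)
  obtain ⟨g2, hg2, h2⟩ := compare_b hA hBb hr.mx hr.my hx0 hy0 f1 hn0 (by omega) (by omega)
  refine ⟨g1 * g2, by positivity, fun R X Y X0 Y0 hApp hApp0 => ?_⟩
  obtain ⟨X', Y', hApp', hRA, -, -⟩ := hlift R X Y (fun z j => ⌊z * R j⌋) (fun _ _ => 0) hApp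
    (fun w _ _ => tendsto_floor hApp.app.R_top) (by simp)
  have h3 := (h1 R X' Y' X' Y' hApp' hApp').mul (h2 R X' Y' X0 Y0 hApp' hApp0)
  refine h3.congr' ?_
  have hpos := (h1 R X' Y' X' Y' hApp' hApp').eventually (lt_mem_nhds hg1)
  filter_upwards [hApp'.mono, hpos] with j hj hp
  rw [hRA.hh P hr.hI hr.hK hj.1 hj.2, hRA.lv P hr.hI hr.hK] at hp ⊢
  have hne : hh P1 (X' j) (Y' j) (lv P1 (X' j) (Y' j) n1) ≠ 0 := by
    intro h
    rw [h, div_zero] at hp
    exact lt_irrefl _ hp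
  field_simp

/-! ### The normalisation -/

/-- canonical lattice lines -/
noncomputable def XR (R : ℝ) (i : ℤ) : ℤ := ⌊(i : ℝ) * R⌋

lemma xr_mono {R : ℝ} (hR : 1 ≤ R) : StrictMono (XR R) := by
  intro i k hik
  unfold XR
  have h1 : (i : ℝ) + 1 ≤ k := by exact_mod_cast hik
  have h2 : (i : ℝ) * R + 1 ≤ k * R := by nlinarith
  have h3 : ⌊(i : ℝ) * R⌋ + 1 ≤ ⌊(k : ℝ) * R⌋ := by
    rw [Int.le_floor]
    push_cast
    linarith [Int.floor_le ((i : ℝ) * R)]
  omega

lemma app_canon {R : ℕ → ℝ} (hR : Tendsto R atTop atTop) :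
    App (fun i : ℤ => (i : ℝ)) (fun i : ℤ => (i : ℝ)) R (fun j => XR (R j))
      (fun j => XR (R j)) where
  app := ⟨hR, fun i => tendsto_floor hR, fun i => tendsto_floor hR⟩
  mono := by
    filter_upwards [hR.eventually_ge_atTop 1] with j hj
    exact ⟨xr_mono hj, xr_mono hj⟩

/-- **(B2)**: from (A) and locality at the marks. -/
theorem stB2_of (hA : StA) (hBa : StB1a) (hBb : StB1b) : ∃ pz : ℝ → ℝ, StPz pz ∧ StB2 pz := by
  by_cases hne : Nonempty PType
  swap
  · refine ⟨fun R => if 0 < R then R ^ (-(1 / 3) : ℝ) else 1, ⟨fun R => ?_, 1, 1, one_pos, one_pos,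
      fun R hR => ?_⟩, fun P => absurd ⟨P⟩ hne⟩
    · simp only
      split_ifs with h
      · positivity
      · exact one_pos
    · have : 0 < R := by linarith
      simp [this]
  obtain ⟨P⟩ := hne
  -- the reference type
  have hcast : StrictMono (fun i : ℤ => (i : ℝ)) := Int.cast_strictMono
  have hI : StrictMono (fun i : ℤ => 3 * i) := fun i k h => by simp only; omega
  obtain ⟨k, hkN, hk⟩ := exists_bottom P
  obtain ⟨P0, n0, f0, -, -, -, s1, s2⟩ := exists_straight P hI hI hkN hk (by ring_nf; rfl)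
  obtain ⟨c, hc, hlow⟩ := Pool.Agent.H52.Q1.hh_lower P0 hcast hcast f0
  obtain ⟨C, hC, hup⟩ := Pool.Agent.H52.Q1.hh_upper P0 hcast hcast f0
  set f : ℝ → ℝ := fun R => hh P0 (XR R) (XR R) (lv P0 (XR R) (XR R) n0) with hf
  -- uniform bounds for large `R`
  obtain ⟨R0, hR0⟩ : ∃ R0 : ℝ, ∀ R ≥ R0, c * R ^ (-(1 / 3) : ℝ) ≤ f R ∧
      f R ≤ C * R ^ (-(1 / 3) : ℝ) := by
    by_contra hcon
    push Not at hcon
    choose! r hr1 hr2 using fun n : ℕ => hcon n
    have hr : Tendsto r atTop atTop :=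
      tendsto_atTop_mono hr1 tendsto_natCast_atTop_atTop
    obtain ⟨j, hj1, hj2⟩ := ((hlow r _ _ (app_canon hr)).and (hup r _ _ (app_canon hr))).exists
    exact absurd hj2 (not_le.2 (hr2 j hj1))
  refine ⟨fun R => if max R0 1 ≤ R then f R else if 0 < R then c * R ^ (-(1 / 3) : ℝ) else 1,
    ⟨fun R => ?_, c, max c C, hc, lt_max_of_lt_left hc, fun R hR => ?_⟩, ?_⟩
  · simp only
    split_ifs with h1 h2
    · have hRpos : 0 < R := lt_of_lt_of_le one_pos ((le_max_right _ _).trans h1)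
      have := (hR0 R ((le_max_left _ _).trans h1)).1
      have h3 : 0 < c * R ^ (-(1 / 3) : ℝ) := by positivity
      linarith
    · positivity
    · exact one_pos
  · have hRpos : 0 < R := by linarith
    have hp : 0 ≤ R ^ (-(1 / 3) : ℝ) := by positivity
    simp only [hRpos, if_true]
    split_ifs with h1
    · obtain ⟨h2, h3⟩ := hR0 R ((le_max_left _ _).trans h1)
      exact ⟨h2, h3.trans (mul_le_mul_of_nonneg_right (le_max_right _ _) hp)⟩
    · exact ⟨le_rfl, mul_le_mul_of_nonneg_right (le_max_left _ _) hp⟩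
  · intro Q x y hx hy n hn
    obtain ⟨g, hg, hlim⟩ := ratio_ref hA hBa hBb hcast hcast f0 s1 s2 Q hx hy hn
    refine ⟨g, hg, fun R X Y hApp => ?_⟩
    refine (hlim R X Y _ _ hApp (app_canon hApp.app.R_top)).congr' ?_
    filter_upwards [hApp.app.R_top.eventually_ge_atTop (max R0 1)] with j hj
    simp only [hj, if_true, hf]

end Pool.Agent.H91.Q1
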