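import Pool.Agent.H91.Q1.B2Near

set_option autoImplicit false
open Finset Filter Topology

/-! Module M5, B2: comparison of one-point functions of two types with the same mark. -/

namespace Pool.Agent.H91.Q1

open Pool.Agent.H75.Perc (dir dir_cases Pr)
open Pool.Agent.Q1.M4 Pool.Agent.Q1.M5 Pool.Agent.H48.Q1

/-! ### Abstract limits -/

/-- If `F i` is eventually within `ε p` of `p = p(ε)`, the same for all `i`, then all `F i` converge
to the same positive limit. -/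
lemma exists_lim {ι : Type*} (F : ι → ℕ → ℝ) (Gd : ι → Prop)
    (h : ∀ ε : ℝ, 0 < ε → ∃ p : ℝ, 0 < p ∧ ∀ i, Gd i → ∀ᶠ j in atTop, |F i j / p - 1| ≤ ε) :
    ∃ g : ℝ, 0 < g ∧ ∀ i, Gd i → Tendsto (F i) atTop (𝓝 g) := by
  classical
  by_cases hne : ∃ i, Gd i
  swap
  · exact ⟨1, one_pos, fun i hi => absurd ⟨i, hi⟩ hne⟩
  obtain ⟨i0, hi0⟩ := hne
  obtain ⟨p1, hp1, h1⟩ := h (1 / 2) (by norm_num)
  have hb1 : ∀ i, Gd i → ∀ᶠ j in atTop, p1 / 2 ≤ F i j ∧ F i j ≤ 2 * p1 := by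
    intro i hi
    filter_upwards [h1 i hi] with j hj
    rw [abs_le, div_sub_one hp1.ne', le_div_iff₀ hp1, div_le_iff₀ hp1] at hj
    constructor <;> nlinarith [hj.1, hj.2]
  -- all approximations are close
  have key : ∀ η : ℝ, 0 < η → ∃ p : ℝ, 0 < p ∧ ∀ i, Gd i → ∀ᶠ j in atTop, |F i j - p| ≤ η := by
    intro η hη
    set ε := min (1 / 2) (η / (4 * p1)) with hε
    have hε0 : 0 < ε := lt_min (by norm_num) (by positivity)
    obtain ⟨p, hp, hh⟩ := h ε hε0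
    have hp2 : p ≤ 4 * p1 := by
      obtain ⟨j, hj1, hj2⟩ := ((hh i0 hi0).and (hb1 i0 hi0)).exists
      rw [abs_le, div_sub_one hp.ne', le_div_iff₀ hp, div_le_iff₀ hp] at hj1
      have : ε ≤ 1 / 2 := min_le_left _ _
      nlinarith [hj1.1, hj2.2]
    refine ⟨p, hp, fun i hi => ?_⟩
    filter_upwards [hh i hi] with j hj
    have e1 : F i j - p = (F i j / p - 1) * p := by field_simp
    rw [e1, abs_mul, abs_of_pos hp]
    have : ε ≤ η / (4 * p1) := min_le_right _ _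
    calc |F i j / p - 1| * p ≤ (η / (4 * p1)) * (4 * p1) := by
          refine mul_le_mul (hj.trans this) hp2 hp.le (by positivity)
      _ = η := by field_simp
  have hcau : CauchySeq (F i0) := by
    rw [Metric.cauchySeq_iff']
    intro η hη
    obtain ⟨p, hp, hh⟩ := key (η / 3) (by positivity)
    obtain ⟨N, hN⟩ := eventually_atTop.1 (hh i0 hi0)
    refine ⟨N, fun n hn => ?_⟩
    rw [Real.dist_eq]
    have h2 := hN n hn
    have h3 := hN N le_rfl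
    rw [abs_le] at h2 h3
    rw [abs_lt]
    constructor <;> linarith
  obtain ⟨g, hg⟩ := cauchySeq_tendsto_of_complete hcau
  have hgpos : 0 < g := by
    have : p1 / 2 ≤ g := ge_of_tendsto hg ((hb1 i0 hi0).mono fun j hj => hj.1)
    linarith
  refine ⟨g, hgpos, fun i hi => ?_⟩
  rw [Metric.tendsto_atTop]
  intro η hη
  obtain ⟨p, hp, hh⟩ := key (η / 4) (by positivity)
  have hgp : |g - p| ≤ η / 4 := by
    have : Tendsto (fun j => |F i0 j - p|) atTop (𝓝 |g - p|) :=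
      (hg.sub_const p).abs
    exact le_of_tendsto this (hh i0 hi0)
  obtain ⟨N, hN⟩ := eventually_atTop.1 (hh i hi)
  refine ⟨N, fun n hn => ?_⟩
  have h2 := hN n hn
  rw [Real.dist_eq]
  rw [abs_le] at h2 hgp
  rw [abs_lt]
  constructor <;> linarith

/-- Three ratios. -/
lemma three_ratio {A B C C' : ℕ → ℝ} {q1 q2 ε : ℝ} (hq1 : 0 < q1) (hq2 : 0 < q2) (hε : 0 < ε)
    (h1 : Tendsto (fun j => A j / C j) atTop (𝓝 q1))
    (h2 : Tendsto (fun j => B j / C' j) atTop (𝓝 q2))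
    (h3 : ∀ᶠ j in atTop, |C j / C' j - 1| ≤ ε) :
    ∀ᶠ j in atTop, |A j / B j / (q1 / q2) - 1| ≤ 3 * ε := by
  have h4 : Tendsto (fun j => (A j / C j) / (B j / C' j) / (q1 / q2)) atTop (𝓝 1) := by
    have := (h1.div h2 hq2.ne').div_const (q1 / q2)
    rwa [div_self (by positivity)] at this
  have h5 : ∀ᶠ j in atTop, |(A j / C j) / (B j / C' j) / (q1 / q2) - 1| ≤ ε / (1 + ε) := by
    have := (h4.sub_const 1).abs
    rw [sub_self, abs_zero] at this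
    exact this.eventually (ge_mem_nhds (by positivity))
  filter_upwards [h3, h5, h1.eventually (lt_mem_nhds hq1), h2.eventually (lt_mem_nhds hq2)]
    with j e3 e5 e1 e2
  have hC : C j ≠ 0 := fun h => by rw [h, div_zero] at e1; exact lt_irrefl _ e1
  have hC' : C' j ≠ 0 := fun h => by rw [h, div_zero] at e2; exact lt_irrefl _ e2
  have hB : B j ≠ 0 := fun h => by rw [h, zero_div] at e2; exact lt_irrefl _ e2
  set u := (A j / C j) / (B j / C' j) / (q1 / q2) with hu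
  set v := C j / C' j with hv
  have e6 : A j / B j / (q1 / q2) = u * v := by
    rw [hu, hv]
    field_simp
  rw [e6]
  have e7 : u * v - 1 = (u - 1) * v + (v - 1) := by ring
  have hvb : |v| ≤ 1 + ε := by
    have : v = 1 + (v - 1) := by ring
    rw [this]
    refine (abs_add_le _ _).trans ?_
    rw [abs_one]
    linarith
  rw [e7]
  refine (abs_add_le _ _).trans ?_
  rw [abs_mul]
  have : |u - 1| * |v| ≤ ε / (1 + ε) * (1 + ε) :=
    mul_le_mul e5 hvb (abs_nonneg _) (by positivity)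
  rw [div_mul_cancel₀ _ (by positivity : (1 + ε) ≠ 0)] at this
  linarith

/-! ### Locality at a mark (proved by helper29) -/

/-- Locality at the mark `a`. -/
def StB1a : Prop := ∀ (P P' : PType) (x y x' y' : ℤ → ℝ), StrictMono x → StrictMono y →
  StrictMono x' → StrictMono y' → ((P.side 0).2 - (P'.side 0).2) % 4 = 0 →
  ((P.side (P.N - 1)).2 - (P'.side (P'.N - 1)).2) % 4 = 0 → ∀ ε : ℝ, 0 < ε → ∃ ρ : ℝ, 0 < ρ ∧
  ∀ (R : ℕ → ℝ) (X Y X' Y' : ℕ → ℤ → ℤ), App x y R X Y → App x' y' R X' Y' →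
    ∀ᶠ j in atTop, ∀ t : ℤ, 1 ≤ t → (t : ℝ) ≤ ρ * R j →
      |hh P (X j) (Y j) (lv P (X j) (Y j) 0 + t • dir (P.side 0).2) /
        hh P' (X' j) (Y' j) (lv P' (X' j) (Y' j) 0 + t • dir (P'.side 0).2) - 1| ≤ ε

/-- Locality at the mark `b`. -/
def StB1b : Prop := ∀ (P P' : PType) (x y x' y' : ℤ → ℝ), StrictMono x → StrictMono y →
  StrictMono x' → StrictMono y' → ((P.side (P.m - 1)).2 - (P'.side (P'.m - 1)).2) % 4 = 0 →
  ((P.side P.m).2 - (P'.side P'.m).2) % 4 = 0 → ∀ ε : ℝ, 0 < ε → ∃ ρ : ℝ, 0 < ρ ∧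
  ∀ (R : ℕ → ℝ) (X Y X' Y' : ℕ → ℤ → ℤ), App x y R X Y → App x' y' R X' Y' →
    ∀ᶠ j in atTop, ∀ t : ℤ, 1 ≤ t → (t : ℝ) ≤ ρ * R j →
      |hh P (X j) (Y j) (lv P (X j) (Y j) P.m - t • dir (P.side (P.m - 1)).2) /
        hh P' (X' j) (Y' j) (lv P' (X' j) (Y' j) P'.m - t • dir (P'.side (P'.m - 1)).2) - 1| ≤ ε

/-! ### Comparison -/

variable {x y x' y' : ℤ → ℝ}

/-- abstract comparison at a mark: `V`, `V'` = the vertices at distance `t` from the mark. -/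
lemma compare_gen {P P' : PType} {n n' : ℕ} (V V' : (ℤ → ℤ) → (ℤ → ℤ) → ℤ → ℤ × ℤ)
    (h1 : ∃ ρ0 : ℝ, 0 < ρ0 ∧ ∀ ρ : ℝ, 0 < ρ → ρ < ρ0 → ∃ q : ℝ, 0 < q ∧
      ∀ (R : ℕ → ℝ) (X Y : ℕ → ℤ → ℤ), App x y R X Y →
      Tendsto (fun j => hh P (X j) (Y j) (lv P (X j) (Y j) n) /
        hh P (X j) (Y j) (V (X j) (Y j) ⌊ρ * R j⌋)) atTop (𝓝 q))
    (h2 : ∃ ρ0 : ℝ, 0 < ρ0 ∧ ∀ ρ : ℝ, 0 < ρ → ρ < ρ0 → ∃ q : ℝ, 0 < q ∧
      ∀ (R : ℕ → ℝ) (X Y : ℕ → ℤ → ℤ), App x' y' R X Y →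
      Tendsto (fun j => hh P' (X j) (Y j) (lv P' (X j) (Y j) n') /
        hh P' (X j) (Y j) (V' (X j) (Y j) ⌊ρ * R j⌋)) atTop (𝓝 q))
    (h3 : ∀ ε : ℝ, 0 < ε → ∃ ρ : ℝ, 0 < ρ ∧
      ∀ (R : ℕ → ℝ) (X Y X' Y' : ℕ → ℤ → ℤ), App x y R X Y → App x' y' R X' Y' →
      ∀ᶠ j in atTop, ∀ t : ℤ, 1 ≤ t → (t : ℝ) ≤ ρ * R j →
        |hh P (X j) (Y j) (V (X j) (Y j) t) / hh P' (X' j) (Y' j) (V' (X' j) (Y' j) t) - 1| ≤ ε) :
    ∃ g : ℝ, 0 < g ∧ ∀ (R : ℕ → ℝ) (X Y X' Y' : ℕ → ℤ → ℤ), App x y R X Y → App x' y' R X' Y' →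
      Tendsto (fun j => hh P (X j) (Y j) (lv P (X j) (Y j) n) /
        hh P' (X' j) (Y' j) (lv P' (X' j) (Y' j) n')) atTop (𝓝 g) := by
  obtain ⟨ρ1, hρ1, h1⟩ := h1
  obtain ⟨ρ2, hρ2, h2⟩ := h2
  obtain ⟨g, hg, hlim⟩ := exists_lim
    (ι := (ℕ → ℝ) × ((ℕ → ℤ → ℤ) × (ℕ → ℤ → ℤ)) × ((ℕ → ℤ → ℤ) × (ℕ → ℤ → ℤ)))
    (fun i j => hh P (i.2.1.1 j) (i.2.1.2 j) (lv P (i.2.1.1 j) (i.2.1.2 j) n) /
        hh P' (i.2.2.1 j) (i.2.2.2 j) (lv P' (i.2.2.1 j) (i.2.2.2 j) n'))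
    (fun i => App x y i.1 i.2.1.1 i.2.1.2 ∧ App x' y' i.1 i.2.2.1 i.2.2.2) (by
      intro ε hε
      obtain ⟨ρ3, hρ3, h3⟩ := h3 (ε / 3) (by positivity)
      set ρ := min (min (ρ1 / 2) (ρ2 / 2)) ρ3 with hρ
      have hρ0 : 0 < ρ := by positivity
      obtain ⟨q1, hq1, g1⟩ := h1 ρ hρ0
        (lt_of_le_of_lt ((min_le_left _ _).trans (min_le_left _ _)) (by linarith))
      obtain ⟨q2, hq2, g2⟩ := h2 ρ hρ0
        (lt_of_le_of_lt ((min_le_left _ _).trans (min_le_right _ _)) (by linarith))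
      refine ⟨q1 / q2, by positivity, ?_⟩
      rintro ⟨R, ⟨X, Y⟩, ⟨X', Y'⟩⟩ ⟨hA, hA'⟩
      have h4 := three_ratio hq1 hq2 (show 0 < ε / 3 by positivity) (g1 R X Y hA) (g2 R X' Y' hA')
        (by
          filter_upwards [h3 R X Y X' Y' hA hA',
            hA.app.R_top.eventually_ge_atTop (1 / ρ)] with j hj hR
          refine hj ⌊ρ * R j⌋ ?_ ?_
          · rw [Int.le_floor]
            rw [div_le_iff₀ hρ0] at hR
            push_cast
            linarith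
          · refine (Int.floor_le _).trans ?_
            have : 0 ≤ R j := le_trans (by positivity) hR
            gcongr
            exact min_le_right _ _)
      filter_upwards [h4] with j hj
      refine le_trans ?_ (show 3 * (ε / 3) ≤ ε by linarith)
      exact hj)
  exact ⟨g, hg, fun R X Y X' Y' hA hA' => hlim (R, (X, Y), (X', Y')) ⟨hA, hA'⟩⟩

/-- comparison of two types with the same mark `a` -/
theorem compare_a (hA : StA) (hB : StB1a) {P P' : PType} (hx : StrictMono x) (hy : StrictMono y)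
    (hx' : StrictMono x') (hy' : StrictMono y') {n n' : ℕ} (hn : FlatV P n) (hn' : FlatV P' n')
    (h1 : ((P.side 0).2 - (P'.side 0).2) % 4 = 0)
    (h2 : ((P.side (P.N - 1)).2 - (P'.side (P'.N - 1)).2) % 4 = 0) :
    ∃ g : ℝ, 0 < g ∧ ∀ (R : ℕ → ℝ) (X Y X' Y' : ℕ → ℤ → ℤ), App x y R X Y → App x' y' R X' Y' →
      Tendsto (fun j => hh P (X j) (Y j) (lv P (X j) (Y j) n) /
        hh P' (X' j) (Y' j) (lv P' (X' j) (Y' j) n')) atTop (𝓝 g) := by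
  refine compare_gen (V := fun X Y t => lv P X Y 0 + t • dir (P.side 0).2)
    (V' := fun X Y t => lv P' X Y 0 + t • dir (P'.side 0).2) ?_ ?_
    (hB P P' x y x' y' hx hy hx' hy' h1 h2)
  · obtain ⟨ρ0, hρ0, h⟩ := near_gen hA P hx hy hn P.hm0 (Or.inl ⟨rfl, rfl⟩)
    refine ⟨ρ0, hρ0, fun ρ hρ hρ' => ?_⟩
    obtain ⟨q, hq, h⟩ := h ρ hρ hρ'
    refine ⟨q, hq, fun R X Y hR => ?_⟩
    have := h R X Y hR
    simp only [one_mul] at this
    exact this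
  · obtain ⟨ρ0, hρ0, h⟩ := near_gen hA P' hx' hy' hn' P'.hm0 (Or.inl ⟨rfl, rfl⟩)
    refine ⟨ρ0, hρ0, fun ρ hρ hρ' => ?_⟩
    obtain ⟨q, hq, h⟩ := h ρ hρ hρ'
    refine ⟨q, hq, fun R X Y hR => ?_⟩
    have := h R X Y hR
    simp only [one_mul] at this
    exact this

/-- comparison of two types with the same mark `b` -/
theorem compare_b (hA : StA) (hB : StB1b) {P P' : PType} (hx : StrictMono x) (hy : StrictMono y)
    (hx' : StrictMono x') (hy' : StrictMono y') {n n' : ℕ} (hn : FlatV P n) (hn' : FlatV P' n')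
    (h1 : ((P.side (P.m - 1)).2 - (P'.side (P'.m - 1)).2) % 4 = 0)
    (h2 : ((P.side P.m).2 - (P'.side P'.m).2) % 4 = 0) :
    ∃ g : ℝ, 0 < g ∧ ∀ (R : ℕ → ℝ) (X Y X' Y' : ℕ → ℤ → ℤ), App x y R X Y → App x' y' R X' Y' →
      Tendsto (fun j => hh P (X j) (Y j) (lv P (X j) (Y j) n) /
        hh P' (X' j) (Y' j) (lv P' (X' j) (Y' j) n')) atTop (𝓝 g) := by
  refine compare_gen (V := fun X Y t => lv P X Y P.m - t • dir (P.side (P.m - 1)).2)
    (V' := fun X Y t => lv P' X Y P'.m - t • dir (P'.side (P'.m - 1)).2) ?_ ?_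
    (hB P P' x y x' y' hx hy hx' hy' h1 h2)
  · have hm := P.hm0
    obtain ⟨ρ0, hρ0, h⟩ := near_gen hA P hx hy hn (n0 := P.m - 1) (by omega)
      (p := P.vert P.m) (Or.inr ⟨rfl, by rw [Nat.sub_add_cancel hm]⟩)
    refine ⟨ρ0, hρ0, fun ρ hρ hρ' => ?_⟩
    obtain ⟨q, hq, h⟩ := h ρ hρ hρ'
    refine ⟨q, hq, fun R X Y hR => ?_⟩
    have := h R X Y hR
    simp only [neg_one_mul, neg_smul, ← sub_eq_add_neg] at this
    exact this
  · have hm := P'.hm0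
    obtain ⟨ρ0, hρ0, h⟩ := near_gen hA P' hx' hy' hn' (n0 := P'.m - 1) (by omega)
      (p := P'.vert P'.m) (Or.inr ⟨rfl, by rw [Nat.sub_add_cancel hm]⟩)
    refine ⟨ρ0, hρ0, fun ρ hρ hρ' => ?_⟩
    obtain ⟨q, hq, h⟩ := h ρ hρ hρ'
    refine ⟨q, hq, fun R X Y hR => ?_⟩
    have := h R X Y hR
    simp only [neg_one_mul, neg_smul, ← sub_eq_add_neg] at this
    exact this

end Pool.Agent.H91.Q1
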